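import Pool.Agent.H4.TD3

namespace Pool.Agent.Results.MP_0479e2_co.Full

open Pool.Agent.H4.TD

/-- Q1 holds; the graph of Q2 attains the bound for every possible pair `(n, g)`;
it is not the only graph attaining it (already for `n = 6`, `g = 3`). -/
theorem result :
    (∀ (V : Type) [Fintype V] (G : SimpleGraph V), G.IsBipartite → (∀ v, ∃ u, G.Adj v u) →
      Odd (gammaT G) → 3 ≤ gammaT G →
      (G.edgeSet.ncard : ℤ) ≤ bound (Fintype.card V) (gammaT G) ∧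
        gammaT G + 2 ≤ Fintype.card V) ∧
    (∀ n g : ℕ, Odd g → 3 ≤ g → g + 2 ≤ n →
      (Ext n g).IsBipartite ∧ (∀ v, ∃ u, (Ext n g).Adj v u) ∧
      Fintype.card ((Fin ((n - g + 3 - 1) / 2) ⊕ Fin ((n - g + 3) / 2 + 1)) ⊕
        (Fin ((g - 3) / 2) × Fin 2)) = n ∧
      gammaT (Ext n g) = g ∧ ((Ext n g).edgeSet.ncard : ℤ) = bound n g) ∧
    (∃ H : SimpleGraph (Fin 6), H.IsBipartite ∧ (∀ v, ∃ u, H.Adj v u) ∧ gammaT H = 3 ∧
      (H.edgeSet.ncard : ℤ) = bound 6 3 ∧ IsEmpty (H ≃g Ext 6 3)) := by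
  refine ⟨?_, fun n g h1 h2 h3 => ext_spec n g h1 h2 h3, ⟨H6, h6_spec⟩⟩
  intro V _ G hG hno hodd _
  classical
  obtain ⟨h1, h2⟩ := q1 hG hno hodd
  refine ⟨?_, h1⟩
  unfold bound
  rw [Int.le_floor, Set.ncard_eq_toFinset_card']
  change ((G.edgeFinset.card : ℤ) : ℚ) ≤ _
  have h3 : ((4 * (G.edgeFinset.card : ℤ) : ℤ) : ℚ) ≤
      ((((Fintype.card V : ℤ) - (gammaT G : ℕ)) * ((Fintype.card V : ℤ) - (gammaT G : ℕ) + 4)
        + 2 * (gammaT G : ℕ) - 2 : ℤ) : ℚ) := by exact_mod_cast h2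
  push_cast at h3 ⊢
  linarith

end Pool.Agent.Results.MP_0479e2_co.Full
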